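import Mathlib

set_option autoImplicit false

/-! Prime divisors of the iterates of `x ^ 2 - 1`: definitions and elementary part. -/

namespace Pool.Agent.Helper577Itp

/-- The set of prime divisors of the terms `n, n ^ 2 - 1, (n ^ 2 - 1) ^ 2 - 1, …`. -/
def P (n : ℕ) : Set ℕ :=
  {p | p.Prime ∧ ∃ k : ℕ, (p : ℤ) ∣ (fun x : ℤ => x ^ 2 - 1)^[k] (n : ℤ)}

/-- primes congruent to `3` or `5` modulo `8` -/
def Q (p : ℕ) : Prop := p.Prime ∧ (p % 8 = 3 ∨ p % 8 = 5)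

instance : DecidablePred Q := fun p => by unfold Q; infer_instance

lemma cast_iter (p : ℕ) (k : ℕ) (n : ℤ) :
    (((fun x : ℤ => x ^ 2 - 1)^[k] n : ℤ) : ZMod p) = (fun x : ZMod p => x ^ 2 - 1)^[k] (n : ZMod p) := by
  induction k generalizing n with
  | zero => simp
  | succ k ih =>
    rw [Function.iterate_succ_apply, Function.iterate_succ_apply, ih]
    push_cast
    rfl

lemma not_sq_two {p : ℕ} (hp : Q p) : ¬ IsSquare (2 : ZMod p) := by
  have : Fact p.Prime := ⟨hp.1⟩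
  have h2 : p ≠ 2 := by
    rintro rfl
    rcases hp.2 with h | h <;> norm_num at h
  rw [ZMod.exists_sq_eq_two_iff h2]
  rcases hp.2 with h | h <;> omega

lemma iter_zero {p : ℕ} (hp : Q p) (k : ℕ) (x : ZMod p)
    (h : (fun x : ZMod p => x ^ 2 - 1)^[k] x = 0) : x = 0 ∨ x = 1 ∨ x = -1 := by
  have : Fact p.Prime := ⟨hp.1⟩
  induction k generalizing x with
  | zero => left; simpa using h
  | succ k ih =>
    rw [Function.iterate_succ_apply] at h
    rcases ih _ h with h1 | h1 | h1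
    · have h2 : (x - 1) * (x + 1) = 0 := by linear_combination h1
      rcases mul_eq_zero.1 h2 with h3 | h3
      · right; left; linear_combination h3
      · right; right; linear_combination h3
    · exfalso
      refine not_sq_two hp ⟨x, ?_⟩
      linear_combination -h1
    · left
      have h2 : x ^ 2 = 0 := by linear_combination h1
      exact pow_eq_zero_iff (two_ne_zero) |>.1 h2

/-- For primes `p ≡ 3, 5 mod 8`: `p ∈ P n` iff `p` divides `n`, `n - 1` or `n + 1`. -/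
theorem mem_P_iff {p n : ℕ} (hp : Q p) :
    p ∈ P n ↔ (p : ℤ) ∣ n ∨ (p : ℤ) ∣ n - 1 ∨ (p : ℤ) ∣ n + 1 := by
  constructor
  · rintro ⟨-, k, hk⟩
    have h1 := (ZMod.intCast_zmod_eq_zero_iff_dvd _ p).2 hk
    rw [cast_iter] at h1
    rcases iter_zero hp k _ h1 with h | h | h
    · left
      exact (ZMod.intCast_zmod_eq_zero_iff_dvd _ p).1 h
    · right; left
      refine (ZMod.intCast_zmod_eq_zero_iff_dvd _ p).1 ?_
      push_cast at h ⊢
      linear_combination h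
    · right; right
      refine (ZMod.intCast_zmod_eq_zero_iff_dvd _ p).1 ?_
      push_cast at h ⊢
      linear_combination h
  · rintro (h | h | h)
    · exact ⟨hp.1, 0, by simpa using h⟩
    · refine ⟨hp.1, 1, ?_⟩
      have : ((fun x : ℤ => x ^ 2 - 1)^[1] (n : ℤ)) = (n - 1) * (n + 1) := by
        rw [Function.iterate_one]; ring
      rw [this]
      exact Dvd.dvd.mul_right h _
    · refine ⟨hp.1, 1, ?_⟩
      have : ((fun x : ℤ => x ^ 2 - 1)^[1] (n : ℤ)) = (n - 1) * (n + 1) := by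
        rw [Function.iterate_one]; ring
      rw [this]
      exact Dvd.dvd.mul_left h _

/-- `s` is the residue of `n` among `0, 1, -1` -/
lemma mem_P_iff' {p n : ℕ} (hp : Q p) :
    p ∈ P n ↔ ∃ j : ℤ, (j = 0 ∨ j = 1 ∨ j = -1) ∧ (p : ℤ) ∣ n - j := by
  rw [mem_P_iff hp]
  constructor
  · rintro (h | h | h)
    · exact ⟨0, by simp, by simpa using h⟩
    · exact ⟨1, by simp, h⟩
    · exact ⟨-1, by simp, by simpa using h⟩
  · rintro ⟨j, rfl | rfl | rfl, h⟩
    · left; simpa using h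
    · right; left; exact h
    · right; right; simpa using h

/-- the determinant argument -/
lemma det_zero {n m i i' j j' p q : ℤ} (hi : i = 0 ∨ i = 1 ∨ i = -1) (hi' : i' = 0 ∨ i' = 1 ∨ i' = -1)
    (hj : j = 0 ∨ j = 1 ∨ j = -1) (hj' : j' = 0 ∨ j' = 1 ∨ j' = -1)
    (hm : 2 ≤ m) (hn : 2 ≤ n) (hp : p ∣ n - i) (hq : q ∣ n - i') (hp' : p ∣ m - j) (hq' : q ∣ m - j')
    (hpq : 2 * (n + m + 1) < p * q) :
    (n - i) * (m - j') - (m - j) * (n - i') = 0 := by
  have h1 : p * q ∣ (n - i) * (m - j') := mul_dvd_mul hp hq'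
  have h2 : p * q ∣ (m - j) * (n - i') := mul_dvd_mul hp' hq
  refine Int.eq_zero_of_abs_lt_dvd (dvd_sub h1 h2) ?_
  refine lt_of_le_of_lt ?_ hpq
  rw [abs_le]
  rcases hi with rfl | rfl | rfl <;> rcases hi' with rfl | rfl | rfl <;>
  rcases hj with rfl | rfl | rfl <;> rcases hj' with rfl | rfl | rfl <;>
  constructor <;> linarith

/-- the good integers: two of `n - 1, n, n + 1` have prime factors `p, q ≡ 3, 5 mod 8` with
`p q > 2 (n + B + 1)`, and each of the three has a prime factor `≡ 3, 5 mod 8` from `5` on -/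
def Good (n B : ℕ) : Prop :=
  (∃ i i' : ℤ, ∃ p q : ℕ, (i = 0 ∨ i = 1 ∨ i = -1) ∧ (i' = 0 ∨ i' = 1 ∨ i' = -1) ∧ i ≠ i' ∧
    Q p ∧ Q q ∧ (p : ℤ) ∣ n - i ∧ (q : ℤ) ∣ n - i' ∧ 2 * (n + B + 1) < p * q) ∧
  (∃ r : ℕ, Q r ∧ 5 ≤ r ∧ (r : ℤ) ∣ n) ∧ (∃ r : ℕ, Q r ∧ 5 ≤ r ∧ (r : ℤ) ∣ n + 1) ∧
  (∃ r : ℕ, Q r ∧ 5 ≤ r ∧ (r : ℤ) ∣ n - 1)

lemma small_dvd {r : ℕ} (h5 : 5 ≤ r) {a : ℤ} (h : (r : ℤ) ∣ a) (h1 : 1 ≤ a) (h2 : a ≤ 4) : False := by
  have := Int.le_of_dvd (by linarith) h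
  omega

theorem good_min {n B : ℕ} (h2n : 2 ≤ n) (h : Good n B) : ∀ m : ℕ, 2 ≤ m → m ≠ n → m ≤ B → P m ≠ P n := by
  intro m hm hmn hmB hP
  obtain ⟨⟨i, i', p, q, hi, hi', hii, hp, hq, hpn, hqn, hpq⟩, ⟨r, hr, hr5, hrn⟩, ⟨s, hs, hs5, hsn⟩,
    ⟨t, ht, ht5, htn⟩⟩ := h
  have hpP : p ∈ P n := (mem_P_iff' hp).2 ⟨i, hi, hpn⟩
  have hqP : q ∈ P n := (mem_P_iff' hq).2 ⟨i', hi', hqn⟩
  have hrP : r ∈ P n := (mem_P_iff' hr).2 ⟨0, by simp, by simpa using hrn⟩
  have hsP : s ∈ P n := (mem_P_iff' hs).2 ⟨-1, by simp, by simpa using hsn⟩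
  have htP : t ∈ P n := (mem_P_iff' ht).2 ⟨1, by simp, htn⟩
  rw [← hP] at hpP hqP hrP hsP htP
  obtain ⟨j, hj, hpm⟩ := (mem_P_iff' hp).1 hpP
  obtain ⟨j', hj', hqm⟩ := (mem_P_iff' hq).1 hqP
  obtain ⟨a, ha, hrm⟩ := (mem_P_iff' hr).1 hrP
  obtain ⟨b, hb, hsm⟩ := (mem_P_iff' hs).1 hsP
  obtain ⟨d, hd, htm⟩ := (mem_P_iff' ht).1 htP
  have hm' : (2 : ℤ) ≤ m := by exact_mod_cast hm
  have hn' : (2 : ℤ) ≤ n := by exact_mod_cast h2n
  have hmn' : (m : ℤ) ≠ n := by exact_mod_cast hmn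
  have hpq' : 2 * ((n : ℤ) + m + 1) < p * q := by
    have h1 : 2 * (n + m + 1) < p * q := by omega
    exact_mod_cast h1
  have hdet := det_zero hi hi' hj hj' hm' hn' hpn hqn hpm hqm hpq'
  have hlin : (m : ℤ) * (i' - i) = n * (j' - j) + j * i' - i * j' := by linear_combination hdet
  have key : (m : ℤ) = n - 1 ∨ 2 * (m : ℤ) = n - 1 ∨ 2 * (m : ℤ) = n + 1 ∨ (m : ℤ) = n + 1 ∨
      (m : ℤ) = 2 * n + 1 ∨ (m : ℤ) = 2 * n - 1 ∨ (m : ℤ) = n := by
    clear hdet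
    rcases hi with rfl | rfl | rfl <;> rcases hi' with rfl | rfl | rfl <;>
    rcases hj with rfl | rfl | rfl <;> rcases hj' with rfl | rfl | rfl <;>
    first
      | exact absurd rfl hii
      | (exfalso; linarith)
      | (left; linarith)
      | (right; left; linarith)
      | (right; right; left; linarith)
      | (right; right; right; left; linarith)
      | (right; right; right; right; left; linarith)
      | (right; right; right; right; right; left; linarith)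
      | (right; right; right; right; right; right; linarith)
  rcases key with h | h | h | h | h | h | h
  · -- m = n - 1, use s
    rcases hb with rfl | rfl | rfl
    · refine small_dvd hs5 (a := (n + 1) - (m - 0)) (dvd_sub hsn hsm) ?_ ?_ <;> linarith
    · refine small_dvd hs5 (a := (n + 1) - (m - 1)) (dvd_sub hsn hsm) ?_ ?_ <;> linarith
    · refine small_dvd hs5 (a := (n + 1) - (m - (-1))) (dvd_sub hsn hsm) ?_ ?_ <;> linarith
  · -- 2 m = n - 1
    rcases ha with rfl | rfl | rfl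
    · refine small_dvd hr5 (a := n - 2 * (m - 0)) (dvd_sub hrn (Dvd.dvd.mul_left hrm _)) ?_ ?_ <;> linarith
    · refine small_dvd hr5 (a := n - 2 * (m - 1)) (dvd_sub hrn (Dvd.dvd.mul_left hrm _)) ?_ ?_ <;> linarith
    · refine small_dvd hr5 (a := 2 * (m - (-1)) - n) (dvd_sub (Dvd.dvd.mul_left hrm _) hrn) ?_ ?_ <;> linarith
  · -- 2 m = n + 1
    rcases ha with rfl | rfl | rfl
    · refine small_dvd hr5 (a := 2 * (m - 0) - n) (dvd_sub (Dvd.dvd.mul_left hrm _) hrn) ?_ ?_ <;> linarith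
    · refine small_dvd hr5 (a := n - 2 * (m - 1)) (dvd_sub hrn (Dvd.dvd.mul_left hrm _)) ?_ ?_ <;> linarith
    · refine small_dvd hr5 (a := 2 * (m - (-1)) - n) (dvd_sub (Dvd.dvd.mul_left hrm _) hrn) ?_ ?_ <;> linarith
  · -- m = n + 1, use t
    rcases hd with rfl | rfl | rfl
    · refine small_dvd ht5 (a := (m - 0) - (n - 1)) (dvd_sub htm htn) ?_ ?_ <;> linarith
    · refine small_dvd ht5 (a := (m - 1) - (n - 1)) (dvd_sub htm htn) ?_ ?_ <;> linarith
    · refine small_dvd ht5 (a := (m - (-1)) - (n - 1)) (dvd_sub htm htn) ?_ ?_ <;> linarith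
  · -- m = 2 n + 1, use t
    rcases hd with rfl | rfl | rfl
    · refine small_dvd ht5 (a := (m - 0) - 2 * (n - 1)) (dvd_sub htm (Dvd.dvd.mul_left htn _)) ?_ ?_ <;> linarith
    · refine small_dvd ht5 (a := (m - 1) - 2 * (n - 1)) (dvd_sub htm (Dvd.dvd.mul_left htn _)) ?_ ?_ <;> linarith
    · refine small_dvd ht5 (a := (m - (-1)) - 2 * (n - 1)) (dvd_sub htm (Dvd.dvd.mul_left htn _)) ?_ ?_ <;> linarith
  · -- m = 2 n - 1, use s
    rcases hb with rfl | rfl | rfl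
    · refine small_dvd hs5 (a := 2 * (n + 1) - (m - 0)) (dvd_sub (Dvd.dvd.mul_left hsn _) hsm) ?_ ?_ <;> linarith
    · refine small_dvd hs5 (a := 2 * (n + 1) - (m - 1)) (dvd_sub (Dvd.dvd.mul_left hsn _) hsm) ?_ ?_ <;> linarith
    · refine small_dvd hs5 (a := 2 * (n + 1) - (m - (-1))) (dvd_sub (Dvd.dvd.mul_left hsn _) hsm) ?_ ?_ <;> linarith
  · exact hmn' h

end Pool.Agent.Helper577Itp
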