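import Pool.Agent.helper577_itp.Dens

set_option autoImplicit false

open Finset Filter Topology

namespace Pool.Agent.Helper577Itp

/-- `n ∈ [2, X]` such that `n + c - 1` has a large prime factor `≡ 3, 5 mod 8` -/
noncomputable def EC (a : ℝ) (c X : ℕ) : Finset ℕ := by
  classical
  exact (Icc 2 X).filter (fun n => ∃ p : ℕ, Q p ∧ ya a X < p ∧ p ∣ n + c - 1)

/-- multiples -/
noncomputable def MC (c X p : ℕ) : Finset ℕ := by
  classical
  exact (Icc 2 X).filter (fun n => p ∣ n + c - 1)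

lemma MC_card (c X p : ℕ) (hc : c ≤ 2) (hp : 3 ≤ p) (hX : 1 ≤ X) : (X : ℝ) / p - 1 ≤ ((MC c X p).card : ℝ) := by
  classical
  have h1 : ((Ioc 0 (X - 1)).filter (fun k => p ∣ k)).card = (X - 1) / p := Nat.Ioc_filter_dvd_card_eq_div _ _
  have h2 : ((Ioc 0 (X - 1)).filter (fun k => p ∣ k)).card ≤ (MC c X p).card := by
    refine Finset.card_le_card_of_injOn (fun k => k + 1 - c) ?_ ?_
    · intro k hk
      rw [mem_coe, mem_filter, mem_Ioc] at hk
      have hk3 : 3 ≤ k := hp.trans (Nat.le_of_dvd hk.1.1 hk.2)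
      unfold MC
      rw [mem_coe, mem_filter, mem_Icc]
      have e : k + 1 - c + c - 1 = k := by omega
      refine ⟨?_, ?_⟩
      · change 2 ≤ k + 1 - c ∧ k + 1 - c ≤ X
        omega
      · change p ∣ k + 1 - c + c - 1
        rw [e]
        exact hk.2
    · intro a ha b hb hab
      rw [mem_coe, mem_filter, mem_Ioc] at ha hb
      have ha3 : 3 ≤ a := hp.trans (Nat.le_of_dvd ha.1.1 ha.2)
      have hb3 : 3 ≤ b := hp.trans (Nat.le_of_dvd hb.1.1 hb.2)
      simp only at hab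
      omega
  rw [h1] at h2
  have h3 : (((X - 1) / p : ℕ) : ℝ) ≤ ((MC c X p).card : ℝ) := by exact_mod_cast h2
  have hp0 : (0 : ℝ) < p := by exact_mod_cast (by omega : 0 < p)
  have h4 : (X : ℝ) / p ≤ (((X - 1) / p : ℕ) : ℝ) + 1 := by
    rw [div_le_iff₀ hp0]
    have h5 : X ≤ ((X - 1) / p + 1) * p := by
      have := Nat.div_add_mod (X - 1) p
      have h6 := Nat.mod_lt (X - 1) (by omega : 0 < p)
      have h7 : ((X - 1) / p + 1) * p = p * ((X - 1) / p) + p := by ring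
      omega
    exact_mod_cast h5
  linarith

lemma ya_mul_lt {a : ℝ} {X p q : ℕ} (hX : 1 ≤ X) (hp : ya a X < p) (hq : ya a X < q) :
    9 * (X : ℝ) ^ (2 * a) < (p : ℝ) * q := by
  have h1 := ya_lt hX hp
  have h2 := ya_lt hX hq
  rcases le_total p q with h | h
  · have : (p : ℝ) ≤ q := by exact_mod_cast h
    nlinarith [(Nat.cast_nonneg p : (0 : ℝ) ≤ p)]
  · have : (q : ℝ) ≤ p := by exact_mod_cast h
    nlinarith [(Nat.cast_nonneg q : (0 : ℝ) ≤ q)]

lemma EC_card (a : ℝ) (ha : 1 / 2 ≤ a) (c X : ℕ) (hc : c ≤ 2) (hX : 5 ≤ X) (hyX : ya a X ≤ X) :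
    (X : ℝ) * (PQ X - PQ (ya a X)) - (((Icc 1 X).filter Nat.Prime).card : ℝ) ≤ ((EC a c X).card : ℝ) := by
  classical
  set S := (Ioc (ya a X) X).filter Q with hS
  have h1 : S.biUnion (fun p => MC c X p) ⊆ EC a c X := by
    intro n hn
    rw [mem_biUnion] at hn
    obtain ⟨p, hp, hn⟩ := hn
    rw [hS, mem_filter, mem_Ioc] at hp
    unfold MC at hn
    rw [mem_filter] at hn
    unfold EC
    rw [mem_filter]
    exact ⟨hn.1, p, hp.2, hp.1.1, hn.2⟩
  have h2 : (S.biUnion (fun p => MC c X p)).card = ∑ p ∈ S, (MC c X p).card := by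
    refine Finset.card_biUnion ?_
    intro p hp q hq hpq
    rw [hS, mem_coe, mem_filter, mem_Ioc] at hp hq
    refine Finset.disjoint_left.2 fun n hn1 hn2 => ?_
    unfold MC at hn1 hn2
    rw [mem_filter, mem_Icc] at hn1 hn2
    have hcop : Nat.Coprime p q := (Nat.coprime_primes hp.2.1 hq.2.1).2 hpq
    have hd := Nat.le_of_dvd (by omega) (hcop.mul_dvd_of_dvd_of_dvd hn1.2 hn2.2)
    have h5 := ya_mul_lt (by omega : 1 ≤ X) hp.1.1 hq.1.1
    have h6 : (X : ℝ) ≤ (X : ℝ) ^ (2 * a) := by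
      have hX1 : (1 : ℝ) ≤ X := by exact_mod_cast (by omega : 1 ≤ X)
      calc (X : ℝ) = (X : ℝ) ^ (1 : ℝ) := (Real.rpow_one _).symm
        _ ≤ (X : ℝ) ^ (2 * a) := Real.rpow_le_rpow_of_exponent_le hX1 (by linarith)
    have h7 : (p : ℝ) * q ≤ X + 1 := by
      have : p * q ≤ X + 1 := by omega
      exact_mod_cast this
    have h8 : (5 : ℝ) ≤ X := by exact_mod_cast hX
    linarith
  have h3 : ∑ p ∈ S, ((X : ℝ) / p - 1) ≤ ∑ p ∈ S, ((MC c X p).card : ℝ) := by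
    refine Finset.sum_le_sum fun p hp => ?_
    rw [hS, mem_filter, mem_Ioc] at hp
    refine MC_card c X p hc ?_ (by omega)
    have := hp.2.2
    omega
  have h4 : ∑ p ∈ S, ((MC c X p).card : ℝ) ≤ ((EC a c X).card : ℝ) := by
    have := Finset.card_le_card h1
    rw [h2] at this
    exact_mod_cast this
  have h5 : ∑ p ∈ S, ((X : ℝ) / p - 1) = X * (PQ X - PQ (ya a X)) - S.card := by
    rw [Finset.sum_sub_distrib]
    simp only [sum_const, nsmul_eq_mul, mul_one]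
    congr 1
    have h6 : PQ X = PQ (ya a X) + ∑ p ∈ S, (1 : ℝ) / p := by
      unfold PQ
      rw [← Finset.sum_union]
      · refine Finset.sum_congr ?_ fun _ _ => rfl
        ext p
        rw [hS]
        simp only [mem_filter, mem_union, mem_Icc, mem_Ioc]
        constructor
        · rintro ⟨h, h'⟩
          by_cases h'' : p ≤ ya a X
          · left; exact ⟨⟨h.1, h''⟩, h'⟩
          · right; exact ⟨⟨by omega, h.2⟩, h'⟩
        · rintro (⟨h, h'⟩ | ⟨h, h'⟩)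
          · exact ⟨⟨h.1, by omega⟩, h'⟩
          · exact ⟨⟨by omega, h.2⟩, h'⟩
      · refine Finset.disjoint_left.2 fun p hp1 hp2 => ?_
        rw [hS] at hp2
        simp only [mem_filter, mem_Icc, mem_Ioc] at hp1 hp2
        omega
    rw [h6, add_sub_cancel_left, Finset.mul_sum]
    refine Finset.sum_congr rfl fun p _ => ?_
    ring
  have h6 : (S.card : ℝ) ≤ (((Icc 1 X).filter Nat.Prime).card : ℝ) := by
    have : S ⊆ (Icc 1 X).filter Nat.Prime := by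
      intro p hp
      rw [hS, mem_filter, mem_Ioc] at hp
      rw [mem_filter, mem_Icc]
      exact ⟨⟨by omega, hp.1.2⟩, hp.2.1⟩
    exact_mod_cast Finset.card_le_card this
  linarith

/-- the integers `n ≤ X` whose set `P n` is not shared by any other `m ≤ n ^ (1 + δ)` -/
noncomputable def LR (δ : ℝ) (X : ℕ) : Finset ℕ := by
  classical
  exact (Icc 2 X).filter (fun n => ∀ m : ℕ, 2 ≤ m → m ≠ n → (m : ℝ) ≤ (n : ℝ) ^ (1 + δ) → P m ≠ P n)

/-- integers `n ≤ X` such that `n - 1` has no prime factor `≡ 3, 5 mod 8` from `5` on -/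
noncomputable def YZ (X : ℕ) : Finset ℕ := by
  classical
  exact (Icc 2 X).filter (fun n => ∀ r : ℕ, Q r → 5 ≤ r → ¬ r ∣ n - 1)

lemma YZ_card (X : ℕ) : (YZ X).card ≤ (ZZ 0 X).card := by
  classical
  refine Finset.card_le_card_of_injOn (fun n => n - 1) ?_ ?_
  · intro n hn
    unfold YZ at hn
    rw [mem_coe, mem_filter, mem_Icc] at hn
    unfold ZZ
    rw [mem_coe, mem_filter, mem_Icc]
    refine ⟨?_, ?_⟩
    · change 1 ≤ n - 1 ∧ n - 1 ≤ X
      omega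
    · intro r hr hr5 h
      exact hn.2 r hr hr5 (by simpa using h)
  · intro a ha b hb hab
    unfold YZ at ha hb
    rw [mem_coe, mem_filter, mem_Icc] at ha hb
    simp only at hab
    omega

lemma EC_good {δ : ℝ} (hδ : 0 ≤ δ) {c c' X n : ℕ} (hc : c ≤ 2) (hc' : c' ≤ 2) (hcc : c ≠ c')
    (h1 : n ∈ EC ((1 + δ) / 2) c X) (h2 : n ∈ EC ((1 + δ) / 2) c' X)
    (h3 : n ∉ ZZ 0 X) (h4 : n ∉ ZZ 1 X) (h5 : n ∉ YZ X) : n ∈ LR δ X := by
  classical
  unfold EC at h1 h2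
  rw [mem_filter, mem_Icc] at h1 h2
  obtain ⟨hn, p, hp, hyp, hpn⟩ := h1
  obtain ⟨-, q, hq, hyq, hqn⟩ := h2
  unfold ZZ at h3 h4
  unfold YZ at h5
  rw [mem_filter, mem_Icc] at h3 h4 h5
  push Not at h3 h4 h5
  obtain ⟨r, hr, hr5, hrn⟩ := h3 (by omega)
  obtain ⟨s, hs, hs5, hsn⟩ := h4 (by omega)
  obtain ⟨t, ht, ht5, htn⟩ := h5 (by omega)
  have hX1 : (1 : ℝ) ≤ X := by exact_mod_cast (by omega : 1 ≤ X)
  have hXX : (X : ℝ) ≤ (X : ℝ) ^ (1 + δ) := by
    calc (X : ℝ) = (X : ℝ) ^ (1 : ℝ) := (Real.rpow_one _).symm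
      _ ≤ (X : ℝ) ^ (1 + δ) := Real.rpow_le_rpow_of_exponent_le hX1 (by linarith)
  have hgood : Good n ⌊(X : ℝ) ^ (1 + δ)⌋₊ := by
    refine ⟨⟨1 - (c : ℤ), 1 - (c' : ℤ), p, q, by omega, by omega, by omega, hp, hq, ?_, ?_, ?_⟩,
      ⟨r, hr, hr5, ?_⟩, ⟨s, hs, hs5, ?_⟩, ⟨t, ht, ht5, ?_⟩⟩
    · have := Int.natCast_dvd_natCast.2 hpn
      have e : ((n + c - 1 : ℕ) : ℤ) = n - (1 - (c : ℤ)) := by omega
      rwa [e] at this
    · have := Int.natCast_dvd_natCast.2 hqn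
      have e : ((n + c' - 1 : ℕ) : ℤ) = n - (1 - (c' : ℤ)) := by omega
      rwa [e] at this
    · have h6 := ya_mul_lt (by omega : 1 ≤ X) hyp hyq
      rw [show 2 * ((1 + δ) / 2) = 1 + δ by ring] at h6
      have h7 : ((⌊(X : ℝ) ^ (1 + δ)⌋₊ : ℕ) : ℝ) ≤ (X : ℝ) ^ (1 + δ) := Nat.floor_le (by positivity)
      have h8 : (n : ℝ) ≤ X := by exact_mod_cast hn.2
      have h9 : 2 * ((n : ℝ) + (⌊(X : ℝ) ^ (1 + δ)⌋₊ : ℕ) + 1) < p * q := by linarith
      exact_mod_cast h9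
    · exact Int.natCast_dvd_natCast.2 (by simpa using hrn)
    · have := Int.natCast_dvd_natCast.2 hsn
      push_cast at this
      exact this
    · have := Int.natCast_dvd_natCast.2 htn
      rw [Nat.cast_sub (by omega)] at this
      simpa using this
  unfold LR
  rw [mem_filter, mem_Icc]
  refine ⟨hn, fun m hm hmn hmle => good_min hn.1 hgood m hm hmn ?_⟩
  refine Nat.le_floor (hmle.trans ?_)
  exact Real.rpow_le_rpow (Nat.cast_nonneg _) (by exact_mod_cast hn.2) (by linarith)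

lemma pigeon {δ : ℝ} (hδ : 0 ≤ δ) (X : ℕ) : (EC ((1 + δ) / 2) 0 X).card + (EC ((1 + δ) / 2) 1 X).card +
    (EC ((1 + δ) / 2) 2 X).card ≤ X + 2 * ((LR δ X).card + (ZZ 0 X).card + (ZZ 1 X).card + (YZ X).card) := by
  classical
  set a := (1 + δ) / 2 with ha
  have hsub : ∀ c, EC a c X ⊆ Icc 2 X := by
    intro c
    unfold EC
    exact filter_subset _ _
  have hcard : ∀ c, (EC a c X).card = ∑ n ∈ Icc 2 X, if n ∈ EC a c X then 1 else 0 := by
    intro c
    rw [Finset.sum_boole, Nat.cast_id]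
    congr 1
    ext n
    rw [mem_filter]
    exact ⟨fun h => ⟨hsub c h, h⟩, fun h => h.2⟩
  set U := LR δ X ∪ (ZZ 0 X ∪ (ZZ 1 X ∪ YZ X)) with hUdef
  have hU : U.card ≤ (LR δ X).card + (ZZ 0 X).card + (ZZ 1 X).card + (YZ X).card := by
    have e1 := Finset.card_union_le (LR δ X) (ZZ 0 X ∪ (ZZ 1 X ∪ YZ X))
    have e2 := Finset.card_union_le (ZZ 0 X) (ZZ 1 X ∪ YZ X)
    have e3 := Finset.card_union_le (ZZ 1 X) (YZ X)
    rw [← hUdef] at e1
    omega
  have hV : ∑ n ∈ Icc 2 X, (if n ∈ U then 1 else 0) ≤ U.card := by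
    rw [Finset.sum_boole, Nat.cast_id]
    exact Finset.card_le_card fun n hn => (mem_filter.1 hn).2
  have hmain : ∑ n ∈ Icc 2 X, ((if n ∈ EC a 0 X then 1 else 0) + (if n ∈ EC a 1 X then 1 else 0) +
      (if n ∈ EC a 2 X then 1 else 0)) ≤
      ∑ n ∈ Icc 2 X, (1 + 2 * (if n ∈ U then 1 else 0)) := by
    refine Finset.sum_le_sum fun n hn => ?_
    by_cases hL : n ∈ U
    · rw [if_pos hL]
      split_ifs <;> omega
    · rw [if_neg hL]
      rw [hUdef, mem_union, mem_union, mem_union] at hL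
      push Not at hL
      obtain ⟨hL1, hL2, hL3, hL4⟩ := hL
      have h01 : ¬ (n ∈ EC a 0 X ∧ n ∈ EC a 1 X) := fun h =>
        hL1 (EC_good hδ (by norm_num) (by norm_num) (by norm_num) h.1 h.2 hL2 hL3 hL4)
      have h02 : ¬ (n ∈ EC a 0 X ∧ n ∈ EC a 2 X) := fun h =>
        hL1 (EC_good hδ (by norm_num) (by norm_num) (by norm_num) h.1 h.2 hL2 hL3 hL4)
      have h12 : ¬ (n ∈ EC a 1 X ∧ n ∈ EC a 2 X) := fun h =>
        hL1 (EC_good hδ (by norm_num) (by norm_num) (by norm_num) h.1 h.2 hL2 hL3 hL4)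
      by_cases q1 : n ∈ EC a 0 X <;> by_cases q2 : n ∈ EC a 1 X <;> by_cases q3 : n ∈ EC a 2 X <;>
        simp only [q1, q2, q3, true_and, and_true, not_true, not_false_iff, if_true, if_false] at * <;> omega
  rw [Finset.sum_add_distrib, Finset.sum_add_distrib, ← hcard, ← hcard, ← hcard, Finset.sum_add_distrib,
    ← Finset.mul_sum] at hmain
  have hX : ∑ n ∈ Icc 2 X, 1 ≤ X := by simp
  omega

theorem LR_lower (δ : ℝ) (hδ : 0 ≤ δ) (hδ1 : δ < 1) : ∀ ε : ℝ, 0 < ε → ∃ X0 : ℕ, ∀ X : ℕ, X0 ≤ X →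
    ((3 * Real.log (2 / (1 + δ)) - 2) / 4 - ε) * X ≤ ((LR δ X).card : ℝ) := by
  intro ε hε
  obtain ⟨X1, h1⟩ := ZZ_small 0 (ε / 8) (by positivity)
  obtain ⟨X2, h2⟩ := ZZ_small 1 (ε / 8) (by positivity)
  obtain ⟨X3, h3⟩ := pi_small (ε / 6) (by positivity)
  have ha : (0 : ℝ) < (1 + δ) / 2 := by linarith
  have ha1 : (1 + δ) / 2 < 1 := by linarith
  have hlim := PQ_tendsto_a ((1 + δ) / 2) ha ha1
  rw [show 1 / ((1 + δ) / 2) = 2 / (1 + δ) by rw [one_div_div]] at hlim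
  obtain ⟨X4, h4⟩ := eventually_atTop.1 ((hlim.eventually (eventually_ge_nhds
    (show Real.log (2 / (1 + δ)) / 2 - ε / 6 < Real.log (2 / (1 + δ)) / 2 by linarith))).and (ya_le _ ha1))
  refine ⟨max (max X1 X2) (max (max X3 X4) 5), fun X hX => ?_⟩
  have hX1 : X1 ≤ X := le_trans (by simp) hX
  have hX2 : X2 ≤ X := le_trans (by simp) hX
  have hX3 : X3 ≤ X := le_trans (by simp) hX
  have hX4 : X4 ≤ X := le_trans (by simp) hX
  have hX5 : 5 ≤ X := le_trans (by simp) hX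
  have a1 := h1 X hX1
  have a2 := h2 X hX2
  have a3 := h3 X hX3
  obtain ⟨a4, a5⟩ := h4 X hX4
  have b : ∀ c ≤ 2, (X : ℝ) * (Real.log (2 / (1 + δ)) / 2 - ε / 3) ≤ ((EC ((1 + δ) / 2) c X).card : ℝ) := by
    intro c hc
    refine le_trans ?_ (EC_card _ (by linarith) c X hc hX5 a5)
    have h5 : (X : ℝ) * (Real.log (2 / (1 + δ)) / 2 - ε / 6) ≤ X * (PQ X - PQ (ya ((1 + δ) / 2) X)) := by gcongr
    linarith
  have b0 := b 0 (by norm_num)
  have b1 := b 1 (by norm_num)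
  have b2 := b 2 (by norm_num)
  have hy : ((YZ X).card : ℝ) ≤ (ZZ 0 X).card := by exact_mod_cast YZ_card X
  have hp : ((EC ((1 + δ) / 2) 0 X).card : ℝ) + (EC ((1 + δ) / 2) 1 X).card + (EC ((1 + δ) / 2) 2 X).card ≤
    X + 2 * ((LR δ X).card + (ZZ 0 X).card + (ZZ 1 X).card + (YZ X).card) := by exact_mod_cast pigeon hδ X
  linarith

end Pool.Agent.Helper577Itp
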