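import Pool.Agent.helper577_itp.Lim

set_option autoImplicit false

open Finset Filter Topology

namespace Pool.Agent.Helper577Itp

lemma PQ_eq (N : ℕ) : PQ N = ∑ p ∈ range (N + 1), (if Q p then (1 : ℝ) / p else 0) := by
  unfold PQ
  rw [← sum_filter]
  refine sum_congr ?_ fun _ _ => rfl
  ext p
  simp only [mem_filter, mem_Icc, mem_range]
  constructor
  · rintro ⟨h1, h2⟩
    exact ⟨by omega, h2⟩
  · rintro ⟨h1, h2⟩
    exact ⟨⟨h2.1.one_lt.le, by omega⟩, h2⟩

lemma PQ_big (B : ℝ) : ∃ N : ℕ, B ≤ PQ N := by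
  by_contra hc
  push Not at hc
  have hns : Summable (fun p : ℕ => if Q p then (1 : ℝ) / p else 0) := by
    by_contra hs
    have hnn : ∀ p : ℕ, 0 ≤ (if Q p then (1 : ℝ) / p else 0) := by
      intro p
      split_ifs
      · positivity
      · exact le_rfl
    have h1 := (not_summable_iff_tendsto_nat_atTop_of_nonneg hnn).1 hs
    obtain ⟨N, hN1, hN⟩ := ((h1.eventually_ge_atTop B).and (eventually_ge_atTop 1)).exists
    have := hc (N - 1)
    rw [PQ_eq, Nat.sub_add_cancel hN] at this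
    linarith
  obtain ⟨S, hS⟩ := hns
  have h2 := hS.tendsto_sum_nat
  have h3 : Tendsto PQ atTop (𝓝 S) := by
    have := h2.comp (tendsto_add_atTop_nat 1)
    refine this.congr fun N => ?_
    rw [PQ_eq]
    rfl
  have h4 := h3.sub (h3.comp yy_tendsto)
  rw [sub_self] at h4
  have h5 := tendsto_nhds_unique h4 PQ_tendsto
  have := Real.log_two_gt_d9
  linarith

/-- finite sieve -/
lemma sieve (ε : ℝ) (hε : 0 < ε) : ∃ M : ℕ, 0 < M ∧ (∀ r : ℕ, r.Prime → r ∣ M → Q r ∧ 5 ≤ r) ∧
    ∀ k X : ℕ, (((Ico k (k + X)).filter (fun x => M.Coprime x)).card : ℝ) ≤ ε * X + M := by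
  obtain ⟨N, hN⟩ := PQ_big (Real.log (1 / ε) + 1)
  set T : Finset ℕ := (Icc 5 N).filter Q with hT
  have hTp : ∀ p ∈ T, p.Prime := fun p hp => (mem_filter.1 hp).2.1
  have hpf : (∏ p ∈ T, p).primeFactors = T := Nat.primeFactors_prod hTp
  have hM0 : 0 < ∏ p ∈ T, p := Finset.prod_pos fun p hp => (hTp p hp).pos
  refine ⟨∏ p ∈ T, p, hM0, ?_, ?_⟩
  · intro r hr hrM
    have : r ∈ T := by
      rw [← hpf]
      exact Nat.mem_primeFactors.2 ⟨hr, hrM, hM0.ne'⟩
    rw [hT, mem_filter, mem_Icc] at this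
    exact ⟨this.2, this.1.1⟩
  · intro k X
    set M := ∏ p ∈ T, p with hM
    have h1 := Nat.Ico_filter_coprime_le (a := M) k X hM0.ne'
    have h2 : (((Ico k (k + X)).filter (fun x => M.Coprime x)).card : ℝ) ≤ (M.totient : ℝ) * ((X / M : ℕ) + 1) := by
      exact_mod_cast h1
    refine h2.trans ?_
    have h3 : ((X / M : ℕ) : ℝ) ≤ (X : ℝ) / M := Nat.cast_div_le
    have hMr : (0 : ℝ) < M := by exact_mod_cast hM0
    have h4 : (M.totient : ℝ) ≤ ε * M := by
      have h5 := Nat.totient_eq_mul_prod_factors M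
      rw [hpf] at h5
      have h6 : (M.totient : ℝ) = M * ∏ p ∈ T, (1 - (p : ℝ)⁻¹) := by
        have h5' := congrArg (fun q : ℚ => (q : ℝ)) h5
        push_cast at h5'
        exact h5'
      rw [h6, mul_comm]
      refine mul_le_mul_of_nonneg_right ?_ hMr.le
      have h7 : ∏ p ∈ T, (1 - (p : ℝ)⁻¹) ≤ ∏ p ∈ T, Real.exp (-(1 / (p : ℝ))) := by
        refine Finset.prod_le_prod (fun p hp => ?_) (fun p hp => ?_)
        · have : (1 : ℝ) ≤ p := by exact_mod_cast (hTp p hp).one_lt.le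
          have := inv_le_one_of_one_le₀ this
          linarith
        · have := Real.add_one_le_exp (-(1 / (p : ℝ)))
          rw [one_div] at this ⊢
          linarith
      refine h7.trans ?_
      rw [← Real.exp_sum, Finset.sum_neg_distrib]
      have h8 : PQ N ≤ 1 + ∑ p ∈ T, 1 / (p : ℝ) := by
        unfold PQ
        have h9 : (Icc 1 N).filter Q ⊆ insert 3 T := by
          intro p hp
          rw [mem_filter, mem_Icc] at hp
          rw [mem_insert, hT, mem_filter, mem_Icc]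
          by_cases h3 : p = 3
          · left; exact h3
          · right
            refine ⟨⟨?_, hp.1.2⟩, hp.2⟩
            have := hp.2.2
            omega
        refine (Finset.sum_le_sum_of_subset_of_nonneg h9 fun _ _ _ => by positivity).trans ?_
        rw [Finset.sum_insert (by
          rw [hT, mem_filter, mem_Icc]
          omega)]
        gcongr
        norm_num
      have h10 : -∑ p ∈ T, 1 / (p : ℝ) ≤ Real.log ε := by
        have : Real.log (1 / ε) = - Real.log ε := by rw [one_div, Real.log_inv]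
        linarith
      calc Real.exp (-∑ p ∈ T, 1 / (p : ℝ)) ≤ Real.exp (Real.log ε) := Real.exp_le_exp.2 h10
        _ = ε := Real.exp_log hε
    have h11 : (M.totient : ℝ) ≤ M := by exact_mod_cast Nat.totient_le M
    calc (M.totient : ℝ) * ((X / M : ℕ) + 1) ≤ (M.totient : ℝ) * ((X : ℝ) / M + 1) := by gcongr
      _ = (M.totient : ℝ) * ((X : ℝ) / M) + M.totient := by ring
      _ ≤ ε * M * ((X : ℝ) / M) + M := by gcongr
      _ = ε * X + M := by field_simp

/-- integers `n ≤ X` such that `n + c` has no prime factor `≡ 3, 5 mod 8` from `5` on -/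
noncomputable def ZZ (c X : ℕ) : Finset ℕ := by
  classical
  exact (Icc 1 X).filter (fun n => ∀ r : ℕ, Q r → 5 ≤ r → ¬ r ∣ n + c)

lemma ZZ_small (c : ℕ) (ε : ℝ) (hε : 0 < ε) : ∃ X0 : ℕ, ∀ X : ℕ, X0 ≤ X → ((ZZ c X).card : ℝ) ≤ ε * X := by
  classical
  obtain ⟨M, hM0, hM, hs⟩ := sieve (ε / 2) (by positivity)
  obtain ⟨X0, hX0⟩ := exists_nat_ge ((M : ℝ) / (ε / 2))
  refine ⟨X0, fun X hX => ?_⟩
  have h1 : (ZZ c X).card ≤ ((Ico (1 + c) (1 + c + X)).filter (fun x => M.Coprime x)).card := by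
    refine Finset.card_le_card_of_injOn (fun n => n + c) ?_ ?_
    · intro n hn
      unfold ZZ at hn
      simp only [coe_filter, Set.mem_ofPred_eq, mem_Icc, mem_Ico] at hn ⊢
      refine ⟨by omega, ?_⟩
      by_contra hc
      obtain ⟨r, hr, hr1, hr2⟩ := Nat.Prime.not_coprime_iff_dvd.1 hc
      obtain ⟨h3, h4⟩ := hM r hr hr1
      exact hn.2 r h3 h4 hr2
    · intro a _ b _ hab
      simpa using hab
  have h2 : ((ZZ c X).card : ℝ) ≤ ε / 2 * X + M := by
    refine le_trans ?_ (hs (1 + c) X)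
    exact_mod_cast h1
  have h3 : (M : ℝ) ≤ ε / 2 * X := by
    have : (M : ℝ) / (ε / 2) ≤ X := hX0.trans (by exact_mod_cast hX)
    rw [div_le_iff₀ (by positivity)] at this
    linarith
  linarith

lemma pi_small (ε : ℝ) (hε : 0 < ε) : ∃ X0 : ℕ, ∀ X : ℕ, X0 ≤ X →
    (((Icc 1 X).filter Nat.Prime).card : ℝ) ≤ ε * X := by
  classical
  obtain ⟨M, hM0, hM, hs⟩ := sieve (ε / 2) (by positivity)
  obtain ⟨X0, hX0⟩ := exists_nat_ge (((2 * M + 1 : ℕ) : ℝ) / (ε / 2))
  refine ⟨X0, fun X hX => ?_⟩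
  have h1 : (Icc 1 X).filter Nat.Prime ⊆ ((Ico 1 (1 + X)).filter (fun x => M.Coprime x)) ∪ range (M + 1) := by
    intro p hp
    rw [mem_filter, mem_Icc] at hp
    rw [mem_union, mem_filter, mem_Ico, mem_range]
    by_cases h : p ∣ M
    · right
      have := Nat.le_of_dvd hM0 h
      omega
    · left
      refine ⟨by omega, ?_⟩
      exact ((Nat.Prime.coprime_iff_not_dvd hp.2).2 h).symm
  have h2 := (Finset.card_le_card h1).trans (Finset.card_union_le _ _)
  rw [card_range] at h2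
  have h3 : (((Icc 1 X).filter Nat.Prime).card : ℝ) ≤
      (((Ico 1 (1 + X)).filter (fun x => M.Coprime x)).card : ℝ) + (M + 1) := by exact_mod_cast h2
  have h4 := hs 1 X
  have h5 : ((2 * M + 1 : ℕ) : ℝ) ≤ ε / 2 * X := by
    have : ((2 * M + 1 : ℕ) : ℝ) / (ε / 2) ≤ X := hX0.trans (by exact_mod_cast hX)
    rw [div_le_iff₀ (by positivity)] at this
    linarith
  push_cast at h5
  linarith

end Pool.Agent.Helper577Itp
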