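import Pool.Agent.helper577_itp.Mert

set_option autoImplicit false

open Finset Filter Topology

namespace Pool.Agent.Helper577Itp

/-- threshold -/
def yy (X : ℕ) : ℕ := Nat.sqrt (4 * (X + 1))

lemma yy_sq_le (X : ℕ) : yy X * yy X ≤ 4 * (X + 1) := Nat.sqrt_le _

lemma lt_of_yy_lt {X p : ℕ} (h : yy X < p) : 4 * (X + 1) < p * p := Nat.sqrt_lt.1 h

lemma le_yy_sq (X : ℕ) (hX : 1 ≤ X) : X ≤ yy X * yy X := by
  by_contra hc
  push Not at hc
  have h1 : 4 * (X + 1) < (yy X + 1) * (yy X + 1) := lt_of_yy_lt (Nat.lt_succ_self _)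
  have h2 : 1 ≤ yy X := by
    unfold yy
    rw [Nat.le_sqrt]
    omega
  nlinarith

lemma yy_tendsto : Tendsto yy atTop atTop := by
  rw [tendsto_atTop]
  intro b
  filter_upwards [eventually_ge_atTop (b * b)] with X hX
  unfold yy
  rw [Nat.le_sqrt]
  omega

lemma yy_le (X : ℕ) (hX : 5 ≤ X) : yy X ≤ X := by
  unfold yy
  have : Nat.sqrt (4 * (X + 1)) < X + 1 := by
    rw [Nat.sqrt_lt]
    nlinarith
  omega

lemma log_le (X : ℕ) (hX : 1 ≤ X) : Real.log X ≤ 2 * Real.log (yy X) := by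
  have h := le_yy_sq X hX
  have h0 : 0 < yy X := by
    rcases Nat.eq_zero_or_pos (yy X) with h0 | h0
    · rw [h0] at h; omega
    · exact h0
  have h1 : (X : ℝ) ≤ (yy X : ℝ) ^ 2 := by
    rw [sq]; exact_mod_cast h
  have h2 := Real.log_le_log (by exact_mod_cast hX) h1
  rw [Real.log_pow] at h2
  exact_mod_cast h2

lemma le_log (X : ℕ) (hX : 1 ≤ X) : 2 * Real.log (yy X) ≤ Real.log X + Real.log 8 := by
  have h := yy_sq_le X
  have h3 := le_yy_sq X hX
  have h0 : 0 < yy X := by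
    rcases Nat.eq_zero_or_pos (yy X) with h0 | h0
    · rw [h0] at h3; omega
    · exact h0
  have h1 : (yy X : ℝ) ^ 2 ≤ X * 8 := by
    rw [sq]
    have : yy X * yy X ≤ X * 8 := by omega
    exact_mod_cast this
  have h2 := Real.log_le_log (by positivity) h1
  rw [Real.log_pow, Real.log_mul (by positivity) (by norm_num)] at h2
  exact_mod_cast h2

lemma log_yy_tendsto : Tendsto (fun X : ℕ => Real.log (yy X)) atTop atTop :=
  Real.tendsto_log_atTop.comp (tendsto_natCast_atTop_atTop.comp yy_tendsto)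

lemma ratio_tendsto : Tendsto (fun X : ℕ => Real.log X / Real.log (yy X)) atTop (𝓝 2) := by
  have h1 : Tendsto (fun X : ℕ => 2 - Real.log 8 / Real.log (yy X)) atTop (𝓝 (2 - 0)) :=
    tendsto_const_nhds.sub (tendsto_const_nhds.div_atTop log_yy_tendsto)
  rw [sub_zero] at h1
  refine tendsto_of_tendsto_of_tendsto_of_le_of_le' h1 tendsto_const_nhds ?_ ?_
  · filter_upwards [eventually_ge_atTop 1, log_yy_tendsto.eventually_gt_atTop 0] with X hX hl
    rw [le_div_iff₀ hl, sub_mul, div_mul_cancel₀ _ hl.ne']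
    have := le_log X hX
    linarith
  · filter_upwards [eventually_ge_atTop 1, log_yy_tendsto.eventually_gt_atTop 0] with X hX hl
    rw [div_le_iff₀ hl]
    exact log_le X hX

lemma loglog_tendsto (y : ℕ → ℕ) (κ : ℝ) (hκ : 0 < κ) (hy : Tendsto y atTop atTop)
    (hr : Tendsto (fun X : ℕ => Real.log X / Real.log (y X)) atTop (𝓝 κ)) :
    Tendsto (fun X : ℕ => Real.log (Real.log X) - Real.log (Real.log (y X))) atTop (𝓝 (Real.log κ)) := by
  have hly : Tendsto (fun X : ℕ => Real.log (y X)) atTop atTop :=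
    Real.tendsto_log_atTop.comp (tendsto_natCast_atTop_atTop.comp hy)
  have h := (Real.continuousAt_log hκ.ne').tendsto.comp hr
  refine h.congr' ?_
  filter_upwards [hly.eventually_gt_atTop 0,
    (Real.tendsto_log_atTop.comp tendsto_natCast_atTop_atTop).eventually_gt_atTop 0] with X hl hX
  simp only [Function.comp] at hX ⊢
  rw [Real.log_div hX.ne' hl.ne']

lemma PP_tendsto (y : ℕ → ℕ) (κ : ℝ) (hκ : 0 < κ) (hy : Tendsto y atTop atTop)
    (hr : Tendsto (fun X : ℕ => Real.log X / Real.log (y X)) atTop (𝓝 κ)) :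
    Tendsto (fun X : ℕ => PP X - PP (y X)) atTop (𝓝 (Real.log κ)) := by
  obtain ⟨M, hM⟩ := Pool.Agent.H305R2.mertens_inv_tendsto
  have h2 := hM.comp hy
  have h3 := (hM.sub h2).add (loglog_tendsto y κ hκ hy hr)
  rw [sub_self, zero_add] at h3
  refine h3.congr fun X => ?_
  simp only [Function.comp, PP]
  ring

lemma WW_tendsto (y : ℕ → ℕ) (κ : ℝ) (hy : Tendsto y atTop atTop)
    (hyX : ∀ᶠ X in atTop, y X ≤ X)
    (hr : Tendsto (fun X : ℕ => Real.log X / Real.log (y X)) atTop (𝓝 κ)) :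
    Tendsto (fun X : ℕ => WW X - WW (y X)) atTop (𝓝 0) := by
  obtain ⟨x0, h⟩ := WW_bound
  have hly : Tendsto (fun X : ℕ => Real.log (y X)) atTop atTop :=
    Real.tendsto_log_atTop.comp (tendsto_natCast_atTop_atTop.comp hy)
  have h1 : Tendsto (fun X : ℕ => (4 + 2 * (κ + 1)) / Real.log (y X)) atTop (𝓝 0) :=
    tendsto_const_nhds.div_atTop hly
  refine squeeze_zero_norm' ?_ h1
  filter_upwards [hy.eventually_ge_atTop x0, hyX, hly.eventually_ge_atTop 1,
    hr.eventually (eventually_le_nhds (show κ < κ + 1 by linarith))] with X hX h5 hl hκ1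
  rw [Real.norm_eq_abs]
  refine (h (y X) X hX h5).trans ?_
  have hl0 : 0 < Real.log (y X) := by linarith
  rw [div_le_iff₀ hl0] at hκ1
  rw [div_le_div_iff₀ (by positivity) hl0]
  have h3 : 4 + 2 * (Real.log X - Real.log (y X)) ≤ (4 + 2 * (κ + 1)) * Real.log (y X) := by nlinarith
  have hlX : Real.log (y X) ≤ Real.log X := by
    refine Real.log_le_log ?_ (by exact_mod_cast h5)
    by_contra hc
    have : y X = 0 := by
      have : (y X : ℝ) ≤ 0 := not_lt.1 hc
      exact_mod_cast le_antisymm this (Nat.cast_nonneg _)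
    rw [this] at hl
    norm_num at hl
  have h4 : Real.log (y X) ^ 2 ≤ Real.log (y X) ^ 6 := pow_le_pow_right₀ hl (by norm_num)
  have h6 : 0 ≤ 4 + 2 * (κ + 1) := by nlinarith
  calc (4 + 2 * (Real.log X - Real.log (y X))) * Real.log (y X)
      ≤ (4 + 2 * (κ + 1)) * Real.log (y X) * Real.log (y X) := by gcongr
    _ = (4 + 2 * (κ + 1)) * Real.log (y X) ^ 2 := by ring
    _ ≤ (4 + 2 * (κ + 1)) * Real.log (y X) ^ 6 := by gcongr

/-- `∑ 1/p` over the primes `p ≡ 3, 5 mod 8` with `y(X) < p ≤ X` tends to `(log κ)/2`,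
`κ = lim log X / log y(X)`. -/
theorem PQ_tendsto_gen (y : ℕ → ℕ) (κ : ℝ) (hκ : 0 < κ) (hy : Tendsto y atTop atTop)
    (hyX : ∀ᶠ X in atTop, y X ≤ X)
    (hr : Tendsto (fun X : ℕ => Real.log X / Real.log (y X)) atTop (𝓝 κ)) :
    Tendsto (fun X : ℕ => PQ X - PQ (y X)) atTop (𝓝 (Real.log κ / 2)) := by
  have h := (WW_tendsto y κ hy hyX hr).add ((PP_tendsto y κ hκ hy hr).div_const 2)
  rw [zero_add] at h
  refine h.congr fun X => ?_
  unfold WW
  ring

theorem PQ_tendsto : Tendsto (fun X : ℕ => PQ X - PQ (yy X)) atTop (𝓝 (Real.log 2 / 2)) :=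
  PQ_tendsto_gen yy 2 (by norm_num) yy_tendsto (by
    filter_upwards [eventually_ge_atTop 5] with X hX using yy_le X hX) ratio_tendsto

/-- threshold `⌈3 X^a⌉` -/
noncomputable def ya (a : ℝ) (X : ℕ) : ℕ := ⌈3 * (X : ℝ) ^ a⌉₊

lemma ya_ratio (a : ℝ) (ha : 0 < a) : Tendsto (fun X : ℕ => Real.log X / Real.log (ya a X)) atTop (𝓝 (1 / a)) := by
  have hl : Tendsto (fun X : ℕ => Real.log X) atTop atTop :=
    Real.tendsto_log_atTop.comp tendsto_natCast_atTop_atTop
  have h1 : Tendsto (fun X : ℕ => a + Real.log 3 / Real.log X) atTop (𝓝 (a + 0)) :=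
    tendsto_const_nhds.add (tendsto_const_nhds.div_atTop hl)
  have h2 : Tendsto (fun X : ℕ => a + Real.log 4 / Real.log X) atTop (𝓝 (a + 0)) :=
    tendsto_const_nhds.add (tendsto_const_nhds.div_atTop hl)
  rw [add_zero] at h1 h2
  have h3 : Tendsto (fun X : ℕ => Real.log (ya a X) / Real.log X) atTop (𝓝 a) := by
    refine tendsto_of_tendsto_of_tendsto_of_le_of_le' h1 h2 ?_ ?_
    · filter_upwards [eventually_ge_atTop 1, hl.eventually_gt_atTop 0] with X hX hlX
      have hX0 : (0 : ℝ) < X := by exact_mod_cast hX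
      rw [le_div_iff₀ hlX, add_mul, div_mul_cancel₀ _ hlX.ne']
      have h4 : 3 * (X : ℝ) ^ a ≤ ya a X := Nat.le_ceil _
      have h5 := Real.log_le_log (by positivity) h4
      rw [Real.log_mul (by norm_num) (by positivity), Real.log_rpow hX0] at h5
      linarith
    · filter_upwards [eventually_ge_atTop 1, hl.eventually_gt_atTop 0] with X hX hlX
      have hX0 : (0 : ℝ) < X := by exact_mod_cast hX
      have hX1 : (1 : ℝ) ≤ X := by exact_mod_cast hX
      rw [div_le_iff₀ hlX, add_mul, div_mul_cancel₀ _ hlX.ne']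
      have h1a : 1 ≤ (X : ℝ) ^ a := Real.one_le_rpow hX1 ha.le
      have h4 : (ya a X : ℝ) ≤ 4 * (X : ℝ) ^ a := by
        have := Nat.ceil_lt_add_one (show 0 ≤ 3 * (X : ℝ) ^ a by positivity)
        unfold ya
        linarith
      have h6 : (0 : ℝ) < ya a X := lt_of_lt_of_le (by positivity) (Nat.le_ceil (3 * (X : ℝ) ^ a))
      have h5 := Real.log_le_log h6 h4
      rw [Real.log_mul (by norm_num) (by positivity), Real.log_rpow hX0] at h5
      linarith
  have h7 := h3.inv₀ ha.ne'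
  rw [← one_div] at h7
  refine h7.congr fun X => ?_
  rw [inv_div]

lemma ya_tendsto (a : ℝ) (ha : 0 < a) : Tendsto (ya a) atTop atTop := by
  have h1 : Tendsto (fun X : ℕ => 3 * (X : ℝ) ^ a) atTop atTop :=
    ((tendsto_rpow_atTop ha).comp tendsto_natCast_atTop_atTop).const_mul_atTop (by norm_num)
  exact tendsto_nat_ceil_atTop.comp h1

lemma ya_le (a : ℝ) (ha1 : a < 1) : ∀ᶠ X in atTop, ya a X ≤ X := by
  have h1 : Tendsto (fun X : ℕ => (X : ℝ) ^ (1 - a)) atTop atTop :=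
    (tendsto_rpow_atTop (by linarith)).comp tendsto_natCast_atTop_atTop
  filter_upwards [h1.eventually_ge_atTop 3, eventually_ge_atTop 1] with X hX hX1
  have hX0 : (0 : ℝ) < X := by exact_mod_cast hX1
  unfold ya
  rw [Nat.ceil_le]
  calc 3 * (X : ℝ) ^ a ≤ (X : ℝ) ^ (1 - a) * (X : ℝ) ^ a := by gcongr
    _ = X := by rw [← Real.rpow_add hX0]; simp

lemma PQ_tendsto_a (a : ℝ) (ha : 0 < a) (ha1 : a < 1) :
    Tendsto (fun X : ℕ => PQ X - PQ (ya a X)) atTop (𝓝 (Real.log (1 / a) / 2)) :=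
  PQ_tendsto_gen (ya a) (1 / a) (by positivity) (ya_tendsto a ha) (ya_le a ha1) (ya_ratio a ha)

lemma ya_lt {a : ℝ} {X p : ℕ} (hX : 1 ≤ X) (h : ya a X < p) : 9 * (X : ℝ) ^ (2 * a) < (p : ℝ) * p := by
  have hX0 : (0 : ℝ) < X := by exact_mod_cast hX
  have h1 : 3 * (X : ℝ) ^ a < p := lt_of_le_of_lt (Nat.le_ceil _) (by exact_mod_cast h)
  have h2 : (X : ℝ) ^ (2 * a) = (X : ℝ) ^ a * (X : ℝ) ^ a := by
    rw [← Real.rpow_add hX0]; ring_nf
  rw [h2]
  have h3 : 0 < (X : ℝ) ^ a := by positivity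
  nlinarith

end Pool.Agent.Helper577Itp
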