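import Pool.Agent.helper577_itp.Basic
import Pool.Agent.H387R2.U3
import Pool.Agent.H305R2.MertensM

set_option autoImplicit false

open Finset Filter Topology

namespace Pool.Agent.Helper577Itp

/-- sum of `1/p` over the primes `p ≤ N`, `p ≡ 3, 5 mod 8` -/
noncomputable def PQ (N : ℕ) : ℝ := ∑ p ∈ (Icc 1 N).filter Q, (1 : ℝ) / p

/-- sum of `1/p` over the primes `p ≤ N` -/
noncomputable def PP (N : ℕ) : ℝ := ∑ p ∈ (Icc 1 N).filter Nat.Prime, (1 : ℝ) / p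

/-- discrepancy -/
noncomputable def EE (N : ℕ) : ℝ :=
  (((Icc 1 N).filter Q).card : ℝ) - (((Icc 1 N).filter Nat.Prime).card : ℝ) / 2

noncomputable def WW (N : ℕ) : ℝ := PQ N - PP N / 2

lemma card_Q (N : ℕ) : (((Icc 1 N).filter Q).card : ℝ) = H343E.piAP N 8 3 + H343E.piAP N 8 5 := by
  classical
  unfold H343E.piAP
  have hd : Disjoint ((Icc 1 N).filter (fun p => p.Prime ∧ p ≡ 3 [MOD 8]))
      ((Icc 1 N).filter (fun p => p.Prime ∧ p ≡ 5 [MOD 8])) := by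
    refine Finset.disjoint_left.2 fun p hp hq => ?_
    have h1 := (Finset.mem_filter.1 hp).2.2
    have h2 := (Finset.mem_filter.1 hq).2.2
    unfold Nat.ModEq at h1 h2
    omega
  rw [← Nat.cast_add, ← Finset.card_union_of_disjoint hd]
  congr 2
  ext p
  simp only [mem_filter, mem_union, Q, Nat.ModEq]
  norm_num
  tauto

lemma EE_bound : ∃ x0 : ℕ, ∀ x : ℕ, x0 ≤ x → |EE x| ≤ 2 * x / Real.log x ^ 6 := by
  obtain ⟨x0, h⟩ := Pool.Agent.H387R2.Uni.siegel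
  have h1 : ∀ᶠ x : ℕ in atTop, (3 : ℝ) ≤ Real.log x :=
    (Real.tendsto_log_atTop.comp tendsto_natCast_atTop_atTop).eventually_ge_atTop 3
  obtain ⟨x1, hx1⟩ := eventually_atTop.1 h1
  refine ⟨max x0 x1, fun x hx => ?_⟩
  have hl := hx1 x ((le_max_right _ _).trans hx)
  have h8 : ((8 : ℕ) : ℝ) ≤ Real.log x ^ 2 := by push_cast; nlinarith
  have hx0 := (le_max_left _ _).trans hx
  have a3 := h x hx0 8 (by norm_num) h8 3 (by norm_num) (by norm_num)
  have a5 := h x hx0 8 (by norm_num) h8 5 (by norm_num) (by norm_num)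
  have ht : Nat.totient 8 = 4 := by decide
  rw [ht] at a3 a5
  have hE : EE x = (H343E.piAP x 8 3 - H343E.pi1 x / ((4 : ℕ) : ℝ)) +
      (H343E.piAP x 8 5 - H343E.pi1 x / ((4 : ℕ) : ℝ)) := by
    unfold EE
    rw [card_Q]
    unfold H343E.pi1
    push_cast
    ring
  rw [hE]
  calc _ ≤ _ := abs_add_le _ _
    _ ≤ x / Real.log x ^ 6 + x / Real.log x ^ 6 := add_le_add a3 a5
    _ = _ := by ring

lemma filter_succ_sum (R : ℕ → Prop) [DecidablePred R] (f : ℕ → ℝ) (n : ℕ) :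
    ∑ p ∈ (Icc 1 (n + 1)).filter R, f p = ∑ p ∈ (Icc 1 n).filter R, f p + if R (n + 1) then f (n + 1) else 0 := by
  rw [sum_filter, sum_filter, Finset.sum_Icc_succ_top (by omega)]

lemma card_succ (R : ℕ → Prop) [DecidablePred R] (n : ℕ) :
    (((Icc 1 (n + 1)).filter R).card : ℝ) = (((Icc 1 n).filter R).card : ℝ) + if R (n + 1) then 1 else 0 := by
  have := filter_succ_sum R (fun _ => 1) n
  simpa using this

lemma WW_succ (n : ℕ) : WW (n + 1) = WW n + (EE (n + 1) - EE n) / ((n + 1 : ℕ) : ℝ) := by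
  unfold WW PQ PP EE
  rw [filter_succ_sum, filter_succ_sum, card_succ, card_succ]
  have h : ((n + 1 : ℕ) : ℝ) ≠ 0 := by positivity
  by_cases h1 : Q (n + 1)
  · have h2 : (n + 1).Prime := h1.1
    simp only [h1, h2, if_true]
    field_simp
    ring
  · by_cases h2 : (n + 1).Prime
    · simp only [h1, h2, if_true, if_false]
      field_simp
      ring
    · simp only [h1, h2, if_false]
      field_simp
      ring

lemma WW_abel (M N : ℕ) (h : M ≤ N) : WW N - WW M = EE N / ((N + 1 : ℕ) : ℝ) - EE M / ((M + 1 : ℕ) : ℝ) +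
    ∑ n ∈ Ico M N, EE (n + 1) * (1 / ((n + 1 : ℕ) : ℝ) - 1 / ((n + 2 : ℕ) : ℝ)) := by
  induction N, h using Nat.le_induction with
  | base => simp
  | succ N hN ih =>
    rw [Finset.sum_Ico_succ_top hN, WW_succ]
    have h1 : ((N + 1 : ℕ) : ℝ) ≠ 0 := by positivity
    have h2 : ((N + 2 : ℕ) : ℝ) ≠ 0 := by positivity
    have e : WW N = WW M + (EE N / ((N + 1 : ℕ) : ℝ) - EE M / ((M + 1 : ℕ) : ℝ) +
      ∑ n ∈ Ico M N, EE (n + 1) * (1 / ((n + 1 : ℕ) : ℝ) - 1 / ((n + 2 : ℕ) : ℝ))) := by linarith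
    rw [e]
    have e2 : ((N + 1 + 1 : ℕ) : ℝ) = ((N + 2 : ℕ) : ℝ) := by push_cast; ring
    rw [e2]
    field_simp
    ring

lemma log_step (n : ℕ) (hn : 1 ≤ n) : 1 / ((n + 1 : ℕ) : ℝ) ≤ Real.log ((n + 1 : ℕ) : ℝ) - Real.log n := by
  have h0 : (0 : ℝ) < n := by exact_mod_cast hn
  have h1 : (0 : ℝ) < ((n + 1 : ℕ) : ℝ) := by positivity
  have h2 := Real.one_sub_inv_le_log_of_pos (show (0 : ℝ) < ((n + 1 : ℕ) : ℝ) / n by positivity)
  rw [Real.log_div h1.ne' h0.ne'] at h2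
  refine le_trans (le_of_eq ?_) h2
  push_cast at h1 ⊢
  field_simp
  ring

lemma log_sum (M N : ℕ) (hM : 1 ≤ M) (h : M ≤ N) :
    ∑ n ∈ Ico M N, 1 / ((n + 1 : ℕ) : ℝ) ≤ Real.log N - Real.log M := by
  induction N, h using Nat.le_induction with
  | base => simp
  | succ N hN ih =>
    rw [Finset.sum_Ico_succ_top hN]
    have := log_step N (hM.trans hN)
    linarith

lemma WW_bound : ∃ x0 : ℕ, ∀ M N : ℕ, x0 ≤ M → M ≤ N →
    |WW N - WW M| ≤ (4 + 2 * (Real.log N - Real.log M)) / Real.log M ^ 6 := by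
  obtain ⟨x0, hE⟩ := EE_bound
  refine ⟨max x0 3, fun M N hM hMN => ?_⟩
  have hM0 : x0 ≤ M := (le_max_left _ _).trans hM
  have hM3 : 3 ≤ M := (le_max_right _ _).trans hM
  have hL : 0 < Real.log M := Real.log_pos (by exact_mod_cast (by omega : 1 < M))
  have key : ∀ n : ℕ, M ≤ n → |EE n| ≤ 2 * n / Real.log M ^ 6 := by
    intro n hn
    refine (hE n (hM0.trans hn)).trans ?_
    have : Real.log M ≤ Real.log n := Real.log_le_log (by exact_mod_cast (by omega : 0 < M)) (by exact_mod_cast hn)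
    gcongr
  rw [WW_abel M N hMN]
  have a1 : |EE N / ((N + 1 : ℕ) : ℝ)| ≤ 2 / Real.log M ^ 6 := by
    rw [abs_div, abs_of_pos (by positivity : (0 : ℝ) < ((N + 1 : ℕ) : ℝ)), div_le_iff₀ (by positivity)]
    refine (key N hMN).trans ?_
    rw [div_mul_eq_mul_div]
    gcongr
    linarith
  have a2 : |EE M / ((M + 1 : ℕ) : ℝ)| ≤ 2 / Real.log M ^ 6 := by
    rw [abs_div, abs_of_pos (by positivity : (0 : ℝ) < ((M + 1 : ℕ) : ℝ)), div_le_iff₀ (by positivity)]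
    refine (key M le_rfl).trans ?_
    rw [div_mul_eq_mul_div]
    gcongr
    linarith
  have a3 : |∑ n ∈ Ico M N, EE (n + 1) * (1 / ((n + 1 : ℕ) : ℝ) - 1 / ((n + 2 : ℕ) : ℝ))| ≤
      2 / Real.log M ^ 6 * (Real.log N - Real.log M) := by
    refine (Finset.abs_sum_le_sum_abs _ _).trans ?_
    refine le_trans ?_ (mul_le_mul_of_nonneg_left (log_sum M N (by omega) hMN) (by positivity))
    rw [Finset.mul_sum]
    refine Finset.sum_le_sum fun n hn => ?_
    rw [mem_Ico] at hn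
    have h1 : (0 : ℝ) < ((n + 1 : ℕ) : ℝ) := by positivity
    have h2 : (0 : ℝ) < ((n + 2 : ℕ) : ℝ) := by positivity
    have h3 : 1 / ((n + 1 : ℕ) : ℝ) - 1 / ((n + 2 : ℕ) : ℝ) = 1 / (((n + 1 : ℕ) : ℝ) * ((n + 2 : ℕ) : ℝ)) := by
      field_simp
      push_cast
      ring
    rw [h3, abs_mul, abs_of_pos (by positivity : (0 : ℝ) < 1 / (((n + 1 : ℕ) : ℝ) * ((n + 2 : ℕ) : ℝ)))]
    calc |EE (n + 1)| * (1 / (((n + 1 : ℕ) : ℝ) * ((n + 2 : ℕ) : ℝ)))
        ≤ (2 * ((n + 1 : ℕ) : ℝ) / Real.log M ^ 6) * (1 / (((n + 1 : ℕ) : ℝ) * ((n + 2 : ℕ) : ℝ))) :=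
          mul_le_mul_of_nonneg_right (key (n + 1) (by omega)) (by positivity)
      _ = 2 / Real.log M ^ 6 * (1 / ((n + 2 : ℕ) : ℝ)) := by field_simp
      _ ≤ 2 / Real.log M ^ 6 * (1 / ((n + 1 : ℕ) : ℝ)) := by
          gcongr
          omega
  calc _ ≤ |EE N / ((N + 1 : ℕ) : ℝ) - EE M / ((M + 1 : ℕ) : ℝ)| + _ := abs_add_le _ _
    _ ≤ (|EE N / ((N + 1 : ℕ) : ℝ)| + |EE M / ((M + 1 : ℕ) : ℝ)|) + _ := by
        gcongr
        exact abs_sub _ _
    _ ≤ (2 / Real.log M ^ 6 + 2 / Real.log M ^ 6) + 2 / Real.log M ^ 6 * (Real.log N - Real.log M) := by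
        gcongr
    _ = _ := by ring

end Pool.Agent.Helper577Itp
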